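import Pool.Agent.PQP.StmtsV

/-!
# PQP, row BLM: a balanced density has mass at most `1 / (2 - u)` in the cap `cap z u`
-/

set_option autoImplicit false

open scoped InnerProductSpace Topology
open MeasureTheory Filter Set

noncomputable section

namespace Pool.Agent.PQP.H8

open Pool.Agent.PQP Pool.Agent.Helper42_Paneitz Pool.Agent.Helper82_Vir Pool.Agent.FLX

theorem cont_inn (z : S4) : Continuous fun y : S4 => ⟪(z : E5), (y : E5)⟫_ℝ := by
  fun_prop

theorem inn_le (z y : S4) : ⟪(z : E5), (y : E5)⟫_ℝ ≤ 1 ∧ -1 ≤ ⟪(z : E5), (y : E5)⟫_ℝ := by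
  have h1 : ‖(z : E5)‖ = 1 := by simp
  have h2 : ‖(y : E5)‖ = 1 := by simp
  have h := abs_real_inner_le_norm (z : E5) (y : E5)
  rw [h1, h2, mul_one] at h
  exact ⟨(abs_le.1 h).2, (abs_le.1 h).1⟩

theorem bal_inn {f : S4 → ℝ} (hf : Continuous f) (hb : Bal f) (z : S4) :
    ∫ y, f y * ⟪(z : E5), (y : E5)⟫_ℝ ∂sig = 0 := by
  have hc : Continuous fun y : S4 => f y • (y : E5) := hf.smul continuous_subtype_val
  have hi : Integrable (fun y : S4 => f y • (y : E5)) sig :=
    hc.integrable_of_hasCompactSupport (HasCompactSupport.of_compactSpace _)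
  have h1 := integral_inner (𝕜 := ℝ) hi (z : E5)
  unfold Bal at hb
  rw [hb, inner_zero_right] at h1
  rw [← h1]
  refine integral_congr_ae ?_
  filter_upwards with y
  rw [real_inner_smul_right]

/-- BLM -/
theorem blm : BlmStmt := by
  intro f z u hf hb hu hu1
  obtain ⟨hc, hpos, hint⟩ := hf
  have hfi : Integrable f sig := integrable_cont hc
  have hm : MeasurableSet (cap z u) := by
    have : IsClosed (cap z u) := by
      unfold cap
      exact isClosed_le (continuous_const.sub (cont_inn z)) continuous_const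
    exact this.measurableSet
  have hgi : Integrable (fun y : S4 => f y * ⟪(z : E5), (y : E5)⟫_ℝ) sig :=
    integrable_cont (hc.mul (cont_inn z))
  have h0 := bal_inn hc hb z
  have h1 := integral_add_compl hm hgi
  have h2 := integral_add_compl hm hfi
  have h3 : (1 - u) * mas f z u ≤ ∫ y in cap z u, f y * ⟪(z : E5), (y : E5)⟫_ℝ ∂sig := by
    unfold mas
    rw [← integral_const_mul]
    refine setIntegral_mono_on (hfi.integrableOn.const_mul _) hgi.integrableOn hm ?_
    intro y hy
    have hy' : 1 - ⟪(z : E5), (y : E5)⟫_ℝ ≤ u := hy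
    have := mul_le_mul_of_nonneg_left (by linarith : 1 - u ≤ ⟪(z : E5), (y : E5)⟫_ℝ) (hpos y).le
    linarith
  have h4 : -(∫ y in (cap z u)ᶜ, f y ∂sig) ≤
      ∫ y in (cap z u)ᶜ, f y * ⟪(z : E5), (y : E5)⟫_ℝ ∂sig := by
    rw [← integral_neg]
    refine setIntegral_mono_on hfi.integrableOn.neg hgi.integrableOn hm.compl ?_
    intro y _
    have := mul_le_mul_of_nonneg_left (inn_le z y).2 (hpos y).le
    linarith
  have h5 : mas f z u + ∫ y in (cap z u)ᶜ, f y ∂sig = 1 := by
    unfold mas
    rw [h2, hint]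
  rw [le_div_iff₀ (by linarith)]
  rw [h0] at h1
  nlinarith

end Pool.Agent.PQP.H8
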